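import Mathlib

namespace Pool.Agent.H.MP_5dc1dd_co

open Set

abbrev E := EuclideanSpace ℝ (Fin 2)

/-- The family of tiles `T i`, `i ∈ S`, is a multiple tiling of density `d`. -/
def MT {ι : Type} (d : ℕ) (T : ι → Set E) (S : Set ι) : Prop :=
  S.Countable ∧ ∀ p, (∀ i ∈ S, p ∉ frontier (T i)) → {i ∈ S | p ∈ interior (T i)}.encard = d

/-- The family splits into two or more nonempty subfamilies, each a multiple tiling of some
density below `d`. -/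
def Reducible {ι : Type} (d : ℕ) (T : ι → Set E) (S : Set ι) : Prop :=
  ∃ Q : Set (Set ι), Q.Nontrivial ∧ Q.PairwiseDisjoint id ∧ ⋃₀ Q = S ∧
    ∀ U ∈ Q, U.Nonempty ∧ ∃ e, 1 ≤ e ∧ e < d ∧ MT e T U

/-- `P` is the prototile of a monohedral irreducible multiple tiling of density `d`. -/
def Irr (P : Set E) (d : ℕ) : Prop :=
  ∃ (ι : Type) (T : ι → Set E) (S : Set ι),
    (∀ i ∈ S, ∃ g : E ≃ᵢ E, T i = g '' P) ∧ MT d T S ∧ ¬Reducible d T S

def Par (o u v : E) : Set E := {p | ∃ s ∈ Icc (0 : ℝ) 1, ∃ t ∈ Icc (0 : ℝ) 1, p = o + s • u + t • v}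

def Tri (o u v : E) : Set E := {p | ∃ s t : ℝ, 0 ≤ s ∧ 0 ≤ t ∧ s + t ≤ 1 ∧ p = o + s • u + t • v}

theorem irr {ι : Type} {T : ι → Set E} {S : Set ι} (h : MT 2 T S) (j : Fin 5 → ι) (p : Fin 5 → E)
    (hj : ∀ k, j k ∈ S) (ne : ∀ k, j k ≠ j (k + 1)) (gen : ∀ k, ∀ i ∈ S, p k ∉ frontier (T i))
    (m : ∀ k, p k ∈ interior (T (j k)) ∧ p k ∈ interior (T (j (k + 1)))) : ¬Reducible 2 T S := by
  rintro ⟨Q, ⟨U, hU, -⟩, -, rfl, hQ⟩
  obtain ⟨-, e, e1, e2, -, hM⟩ := hQ U hU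
  obtain rfl : e = 1 := by omega
  have sub := subset_sUnion_of_mem hU
  have key : ∀ k, j k ∈ U ↔ j (k + 1) ∉ U := fun k => by
    have a := h.2 _ (gen k)
    obtain ⟨i, b⟩ := encard_eq_one.mp (hM _ fun i hi => gen k i (sub hi))
    have c : {j k, j (k + 1)} = {i ∈ ⋃₀ Q | p k ∈ interior (T i)} :=
      Finite.eq_of_subset_of_encard_le (toFinite _)
        (insert_subset ⟨hj _, (m k).1⟩ (singleton_subset_iff.mpr ⟨hj _, (m k).2⟩))
        (by rw [a, encard_pair (ne k)]; rfl)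
    have hi : i ∈ U ∧ p k ∈ interior (T i) := b.superset (mem_singleton i)
    have x : i ∈ ({j k, j (k + 1)} : Set ι) := c ▸ ⟨sub hi.1, hi.2⟩
    refine ⟨fun s t => ne k ?_, fun t => ?_⟩
    · exact (b ▸ ⟨s, (m k).1⟩ : j k ∈ ({i} : Set ι)).trans
        (b ▸ ⟨t, (m k).2⟩ : j (k + 1) ∈ ({i} : Set ι)).symm
    · rcases x with rfl | rfl
      exacts [hi.1, absurd hi.1 t]
  have k0 := key 0
  have k1 := key 1
  have k2 := key 2
  have k3 := key 3
  have k4 := key 4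
  simp only [Fin.reduceAdd] at *
  tauto

theorem half (a b c : ℝ) (h : a ≠ 0 ∨ b ≠ 0) :
    interior {p : E | c ≤ a * p 0 + b * p 1} = {p | c < a * p 0 + b * p 1} := by
  let f : E →L[ℝ] ℝ := a • EuclideanSpace.proj 0 + b • EuclideanSpace.proj 1
  have o := f.isOpenMap fun t => by
    rcases h with h | h
    · exact ⟨!₂[t / a, 0], by simp [f, mul_div_cancel₀ _ h]⟩
    · exact ⟨!₂[0, t / b], by simp [f, mul_div_cancel₀ _ h]⟩
  have := o.preimage_interior_eq_interior_preimage f.continuous (Ici c)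
  rw [interior_Ici] at this
  exact this.symm

def R : Set E := {p | 0 ≤ p 0 ∧ p 0 ≤ 3 ∧ 0 ≤ p 1 ∧ p 1 ≤ 1}

def D : Set E := {p | p 0 ≤ 3 ∧ 0 ≤ p 1 ∧ 3 * p 1 ≤ p 0}

theorem R_int : interior R = {p | 0 < p 0 ∧ p 0 < 3 ∧ 0 < p 1 ∧ p 1 < 1} := by
  have : R = {p : E | 0 ≤ 1 * p 0 + 0 * p 1} ∩ ({p | -3 ≤ -1 * p 0 + 0 * p 1} ∩
      ({p | 0 ≤ 0 * p 0 + 1 * p 1} ∩ {p | -1 ≤ 0 * p 0 + -1 * p 1})) := by
    ext p
    simp [R]
  rw [this]
  simp only [interior_inter]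
  rw [half, half, half, half] <;> simp [Set.ext_iff]

theorem D_int : interior D = {p | p 0 < 3 ∧ 0 < p 1 ∧ 3 * p 1 < p 0} := by
  have : D = {p : E | -3 ≤ -1 * p 0 + 0 * p 1} ∩
      ({p | 0 ≤ 0 * p 0 + 1 * p 1} ∩ {p | 0 ≤ 1 * p 0 + -3 * p 1}) := by
    ext p
    simp [D]
  rw [this]
  simp only [interior_inter]
  rw [half, half, half] <;> simp [Set.ext_iff]

theorem R_closed : IsClosed R := by
  simp only [R, ofPred_and]
  refine .inter ?_ (.inter ?_ (.inter ?_ ?_)) <;> exact isClosed_le (by fun_prop) (by fun_prop)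

theorem D_closed : IsClosed D := by
  simp only [D, ofPred_and]
  refine .inter ?_ (.inter ?_ ?_) <;> exact isClosed_le (by fun_prop) (by fun_prop)

abbrev J := Bool × ℤ × ℤ

noncomputable def G (j : J) (e : Bool) : E ≃ᵢ E :=
  (IsometryEquiv.addRight !₂[-(j.2.1 : ℝ), -(j.2.2 : ℝ)]).trans
    ((if j.1 then (LinearIsometryEquiv.piLpCongrLeft 2 ℝ ℝ (Equiv.swap 0 1)).toIsometryEquiv
      else 1).trans
      (if e then IsometryEquiv.subLeft !₂[3, 1] else 1))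

def A (j : J) (p : E) : ℝ := if j.1 then p 1 - j.2.2 else p 0 - j.2.1

def B (j : J) (p : E) : ℝ := if j.1 then p 0 - j.2.1 else p 1 - j.2.2

theorem G0 (j : J) (e : Bool) (p : E) : G j e p 0 = if e then 3 - A j p else A j p := by
  obtain ⟨s, x, y⟩ := j
  cases s <;> cases e <;> simp [G, A, sub_eq_add_neg]

theorem G1 (j : J) (e : Bool) (p : E) : G j e p 1 = if e then 1 - B j p else B j p := by
  obtain ⟨s, x, y⟩ := j
  cases s <;> cases e <;> simp [G, B, sub_eq_add_neg]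

theorem pre_int (g : E ≃ᵢ E) (P : Set E) (p : E) : p ∈ interior (g ⁻¹' P) ↔ g p ∈ interior P :=
  (Set.ext_iff.mp (g.toHomeomorph.preimage_interior P) p).symm

theorem pre_fr (g : E ≃ᵢ E) {P : Set E} (h : IsClosed P) (p : E) :
    p ∉ frontier (g ⁻¹' P) ↔ (g p ∈ P → g p ∈ interior P) := by
  rw [(h.preimage g.continuous).frontier_eq, mem_sdiff, pre_int]
  tauto

def S : Set J := {j | if j.1 then (j.2.1 + 5 * j.2.2) % 9 = 2 ∨ (j.2.1 + 5 * j.2.2) % 9 = 3 ∨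
  (j.2.1 + 5 * j.2.2) % 9 = 5 else (j.2.1 + 5 * j.2.2) % 9 = 0 ∨ (j.2.1 + 5 * j.2.2) % 9 = 4 ∨
  (j.2.1 + 5 * j.2.2) % 9 = 7}

theorem cnt (p : E) : {j ∈ S | 0 ≤ A j p ∧ A j p < 3 ∧ 0 ≤ B j p ∧ B j p < 1}.encard = 2 := by
  have fl : ∀ (t : ℝ) (x n : ℤ), (0 ≤ t - x ↔ x ≤ ⌊t⌋) ∧ (t - x < n ↔ ⌊t⌋ < x + n) := fun t x n =>
    ⟨by rw [Int.le_floor, sub_nonneg], by rw [Int.floor_lt, sub_lt_iff_lt_add']; norm_cast⟩
  have f0 := fun t x => (fl t x 0).1
  have f1 := fun t x => (fl t x 1).2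
  have f3 := fun t x => (fl t x 3).2
  push_cast at f1 f3
  have two : ∀ u v : J, u ≠ v → (∀ s x y, (s, x, y) ∈ S ∧ (if s then y ≤ ⌊p 1⌋ ∧ ⌊p 1⌋ < y + 3 ∧
      x ≤ ⌊p 0⌋ ∧ ⌊p 0⌋ < x + 1 else x ≤ ⌊p 0⌋ ∧ ⌊p 0⌋ < x + 3 ∧ y ≤ ⌊p 1⌋ ∧ ⌊p 1⌋ < y + 1) ↔
      (s, x, y) = u ∨ (s, x, y) = v) →
      {j ∈ S | 0 ≤ A j p ∧ A j p < 3 ∧ 0 ≤ B j p ∧ B j p < 1}.encard = 2 := fun u v ne h => by
    rw [← encard_pair ne]
    congr 1
    ext ⟨s, x, y⟩
    rw [mem_insert_iff, mem_singleton_iff, ← h]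
    cases s <;> simp only [mem_ofPred_eq, A, B, f0, f1, f3, Bool.false_eq_true, ↓reduceIte]
  generalize ⌊p 0⌋ = a, ⌊p 1⌋ = b at two
  have : (a + 5 * b) % 9 = 0 ∨ (a + 5 * b) % 9 = 1 ∨ (a + 5 * b) % 9 = 2 ∨ (a + 5 * b) % 9 = 3 ∨
    (a + 5 * b) % 9 = 4 ∨ (a + 5 * b) % 9 = 5 ∨ (a + 5 * b) % 9 = 6 ∨ (a + 5 * b) % 9 = 7 ∨
    (a + 5 * b) % 9 = 8 := by omega
  rcases this with h | h | h | h | h | h | h | h | h
  · exact two (false, a, b) (false, a - 2, b) (by simp; omega) fun s x y => by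
      cases s <;> simp [S] <;> omega
  · exact two (false, a - 1, b) (true, a, b - 1) (by simp) fun s x y => by
      cases s <;> simp [S] <;> omega
  · exact two (false, a - 2, b) (true, a, b) (by simp) fun s x y => by
      cases s <;> simp [S] <;> omega
  · exact two (true, a, b) (true, a, b - 2) (by simp; omega) fun s x y => by
      cases s <;> simp [S] <;> omega
  · exact two (false, a, b) (true, a, b - 2) (by simp) fun s x y => by
      cases s <;> simp [S] <;> omega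
  · exact two (false, a - 1, b) (true, a, b) (by simp) fun s x y => by
      cases s <;> simp [S] <;> omega
  · exact two (false, a - 2, b) (true, a, b - 2) (by simp) fun s x y => by
      cases s <;> simp [S] <;> omega
  · exact two (false, a, b) (true, a, b - 1) (by simp) fun s x y => by
      cases s <;> simp [S] <;> omega
  · exact two (false, a - 1, b) (true, a, b - 1) (by simp) fun s x y => by
      cases s <;> simp [S] <;> omega

def cyc : Fin 5 → J := ![(false, -2, 0), (true, -1, -1), (false, -1, 1), (true, 1, -1), (false, 0, 0)]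

noncomputable def wit : Fin 5 → E :=
  ![!₂[-8 / 10, 1 / 10], !₂[-5 / 10, 11 / 10], !₂[12 / 10, 11 / 10], !₂[12 / 10, 1 / 10],
    !₂[8 / 10, 1 / 10]]

theorem cyc_S (k : Fin 5) : cyc k ∈ S := by fin_cases k <;> simp [cyc, S]

theorem cyc_ne (k : Fin 5) : cyc k ≠ cyc (k + 1) := by fin_cases k <;> simp [cyc]

theorem wit_gen (k : Fin 5) (j : J) (n : ℤ) :
    A j (wit k) ≠ n ∧ B j (wit k) ≠ n ∧ A j (wit k) - 3 * B j (wit k) ≠ n := by
  obtain ⟨s, x, y⟩ := j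
  fin_cases k <;> cases s <;> simp only [A, B, wit] <;> simp <;> refine ⟨?_, ?_, ?_⟩ <;>
    intro h <;> field_simp at h <;> norm_cast at h <;> omega

theorem wit_in (k : Fin 5) : G (cyc k) false (wit k) ∈ interior D ∧
    G (cyc (k + 1)) false (wit k) ∈ interior D := by
  simp only [D_int, mem_ofPred_eq, G0, G1]
  fin_cases k <;> simp [A, B, wit, cyc] <;> norm_num

end Pool.Agent.H.MP_5dc1dd_co
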